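import Mathlib
import Pool.Agent.Helper40.TMA.Stage3
import Pool.Agent.Helper75.RE.Excl

/-!
# Branching of two pasts

Two points with the same last arc and the same last `j` digits, but different digit number `j + 1`,
are at a distance which excludes that both are good.
-/

set_option autoImplicit false

open MeasureTheory Finset

namespace Pool.Agent.Helper61.RH

open Pool.Agent.Helper61.FR
open Pool.Agent.Helper40.TMA (lev lev_ge lev_mono lev_pow lev_lt)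
open Helper75.RE (cell cell_fract)

/-- the beginning of length `j` of the word of `y` -/
theorem cell_mod (K j : ℕ) (hj : j ≤ K) (y : ℝ) :
    cell K y % 2 ^ j = cell j (2 ^ (K - j) * y) := by
  unfold cell
  obtain ⟨f, hf⟩ : ∃ f, f = Int.fract y := ⟨_, rfl⟩
  have hf0 : 0 ≤ f := hf ▸ Int.fract_nonneg y
  have h1 : Int.fract ((2 : ℝ) ^ (K - j) * y) = Int.fract ((2 : ℝ) ^ (K - j) * f) := by
    have e1 : (2 : ℝ) ^ (K - j) * y = (2 : ℝ) ^ (K - j) * f + ((2 ^ (K - j) * ⌊y⌋ : ℤ) : ℝ) := by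
      have := Int.floor_add_fract y
      rw [hf]
      push_cast
      linear_combination (-(2 : ℝ) ^ (K - j)) * this
    rw [e1, Int.fract_add_intCast]
  rw [h1, ← hf]
  obtain ⟨g, hg⟩ : ∃ g, g = (2 : ℝ) ^ (K - j) * f := ⟨_, rfl⟩
  have hg0 : 0 ≤ g := by rw [hg]; positivity
  rw [← hg]
  have e2 : (2 : ℝ) ^ K * f = 2 ^ j * g := by
    rw [hg, ← mul_assoc, ← pow_add]
    congr 2
    omega
  rw [e2]
  have hp : (0 : ℝ) < 2 ^ j := by positivity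
  -- the integral part of `g`
  obtain ⟨m, hm⟩ : ∃ m, m = ⌊g⌋₊ := ⟨_, rfl⟩
  have hfr : Int.fract g = g - m := by
    rw [← Int.self_sub_floor, hm, ← natCast_floor_eq_intCast_floor hg0]
  obtain ⟨u, hu⟩ : ∃ u, u = ⌊(2 : ℝ) ^ j * Int.fract g⌋₊ := ⟨_, rfl⟩
  have hu1 := Nat.floor_le (mul_nonneg hp.le (Int.fract_nonneg g))
  have hu2 := Nat.lt_floor_add_one ((2 : ℝ) ^ j * Int.fract g)
  rw [← hu] at hu1 hu2
  have hult : u < 2 ^ j := by
    rw [hu, Nat.floor_lt (mul_nonneg hp.le (Int.fract_nonneg g))]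
    push_cast
    have := Int.fract_lt_one g
    nlinarith
  have e3 : ⌊(2 : ℝ) ^ j * g⌋₊ = 2 ^ j * m + u := by
    rw [Nat.floor_eq_iff (by positivity)]
    rw [hfr] at hu1 hu2
    push_cast
    constructor <;> nlinarith
  rw [e3, ← hu, Nat.mul_add_mod, Nat.mod_eq_of_lt hult]

/-- the fractional part in terms of the word and the fractional part at the end -/
theorem fract_eq (j : ℕ) (y : ℝ) :
    2 ^ j * Int.fract y = (cell j y : ℝ) + Int.fract (2 ^ j * y) := by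
  unfold cell
  have h1 : Int.fract ((2 : ℝ) ^ j * y) = Int.fract ((2 : ℝ) ^ j * Int.fract y) := by
    have e1 : (2 : ℝ) ^ j * y = (2 : ℝ) ^ j * Int.fract y + ((2 ^ j * ⌊y⌋ : ℤ) : ℝ) := by
      have := Int.floor_add_fract y
      push_cast
      linear_combination (-(2 : ℝ) ^ j) * this
    rw [e1, Int.fract_add_intCast]
  rw [h1, natCast_floor_eq_intCast_floor (mul_nonneg (by positivity) (Int.fract_nonneg y))]
  exact (Int.floor_add_fract _).symm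

/-- The branching lemma. -/
theorem branch (q₀ : ℕ) (w : ℕ → ℕ)
    (hw1 : ∀ q, q₀ ≤ q → 1 ≤ w q) (hw2 : ∀ q, q₀ ≤ q → w q ≤ 2 ^ q) (G : ℕ → Set ℝ)
    (hdet : ∀ q, q₀ ≤ q → ∀ (d : ℤ) (τ x : ℝ), Odd d →
      |τ| * 3 ^ (2 ^ q) * 2 ^ (w q) ≤ 1 → x ∈ G q → x + d / 2 ^ (w q) + τ ∈ G q → False)
    (K n : ℕ) (hn : n = K + 2 ^ lev q₀ K) (x x' : ℝ)
    (hc : ⌊(3 : ℝ) ^ (2 ^ q₀) * Int.fract ((2 : ℝ) ^ n * x)⌋₊ =
      ⌊(3 : ℝ) ^ (2 ^ q₀) * Int.fract ((2 : ℝ) ^ n * x')⌋₊)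
    (j : ℕ) (hj : j < K)
    (h1 : cell K (2 ^ (n - K) * x) % 2 ^ j = cell K (2 ^ (n - K) * x') % 2 ^ j)
    (h2 : cell K (2 ^ (n - K) * x) % 2 ^ (j + 1) ≠ cell K (2 ^ (n - K) * x') % 2 ^ (j + 1)) :
    2 ^ (n - (j + w (lev q₀ (j + 1)))) * x ∉ G (lev q₀ (j + 1)) ∨
      2 ^ (n - (j + w (lev q₀ (j + 1)))) * x' ∉ G (lev q₀ (j + 1)) := by
  by_contra hcon
  push Not at hcon
  obtain ⟨g1, g2⟩ := hcon
  obtain ⟨θ, hθ⟩ : ∃ θ, θ = Int.fract ((2 : ℝ) ^ n * x) - Int.fract ((2 : ℝ) ^ n * x') :=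
    ⟨_, rfl⟩
  have hθ1 : |θ| * 3 ^ (2 ^ q₀) ≤ 1 := by
    have f1 := Nat.floor_le
      (mul_nonneg (by positivity : (0 : ℝ) ≤ 3 ^ (2 ^ q₀)) (Int.fract_nonneg ((2 : ℝ) ^ n * x)))
    have f2 := Nat.floor_le
      (mul_nonneg (by positivity : (0 : ℝ) ≤ 3 ^ (2 ^ q₀)) (Int.fract_nonneg ((2 : ℝ) ^ n * x')))
    have g1 := Nat.lt_floor_add_one ((3 : ℝ) ^ (2 ^ q₀) * Int.fract ((2 : ℝ) ^ n * x))
    have g2 := Nat.lt_floor_add_one ((3 : ℝ) ^ (2 ^ q₀) * Int.fract ((2 : ℝ) ^ n * x'))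
    rw [← hc] at f2 g2
    have h3 : (0 : ℝ) < 3 ^ (2 ^ q₀) := by positivity
    have h4 : |θ| * 3 ^ (2 ^ q₀) = |θ * 3 ^ (2 ^ q₀)| := by rw [abs_mul, abs_of_pos h3]
    rw [h4, abs_le, hθ]
    constructor <;> nlinarith
  obtain ⟨q, hq⟩ : ∃ q, q = lev q₀ (j + 1) := ⟨_, rfl⟩
  have hqq : q₀ ≤ q := hq ▸ lev_ge q₀ (j + 1)
  rw [← hq] at g1 g2
  have hlevK : lev q₀ (j + 1) ≤ lev q₀ K := lev_mono q₀ (by omega)
  have hwq1 := hw1 q hqq
  have hwq2 := hw2 q hqq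
  have hin : j + w q ≤ n := by
    have h5 : 2 ^ q ≤ 2 ^ lev q₀ K := Nat.pow_le_pow_right (by norm_num) (by omega)
    omega
  have hpowK : 1 ≤ 2 ^ lev q₀ K := Nat.one_le_two_pow
  -- the words
  have hword : ∀ (y : ℝ) (i : ℕ), i ≤ K →
      cell K (2 ^ (n - K) * y) % 2 ^ i = cell i (2 ^ (n - i) * y) := by
    intro y i hi
    rw [cell_mod K i hi, ← mul_assoc, ← pow_add]
    have : K - i + (n - K) = n - i := by omega
    rw [this]
  rw [hword x j hj.le, hword x' j hj.le] at h1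
  obtain ⟨a, ha⟩ : ∃ a, a = cell K (2 ^ (n - K) * x) := ⟨_, rfl⟩
  obtain ⟨b, hb⟩ : ∃ b, b = cell K (2 ^ (n - K) * x') := ⟨_, rfl⟩
  have h1' : a % 2 ^ j = b % 2 ^ j := by
    rw [ha, hb, hword x j hj.le, hword x' j hj.le]
    exact h1
  rw [← ha, ← hb] at h2
  -- the difference of the words of length `j + 1`
  have hdiff : ∃ ε : ℤ, Odd ε ∧ ((a % 2 ^ (j + 1) : ℕ) : ℤ) - ((b % 2 ^ (j + 1) : ℕ) : ℤ)
      = ε * 2 ^ j := by
    have hstep : 2 ^ (j + 1) = 2 * 2 ^ j := by ring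
    have e1 : a % 2 ^ (j + 1) % 2 ^ j = a % 2 ^ j := by rw [hstep, Nat.mod_mul_left_mod]
    have e2 : b % 2 ^ (j + 1) % 2 ^ j = b % 2 ^ j := by rw [hstep, Nat.mod_mul_left_mod]
    have l1 : a % 2 ^ (j + 1) < 2 * 2 ^ j := by rw [← hstep]; exact Nat.mod_lt _ (by positivity)
    have l2 : b % 2 ^ (j + 1) < 2 * 2 ^ j := by rw [← hstep]; exact Nat.mod_lt _ (by positivity)
    obtain ⟨u, hu⟩ : ∃ u, u = a % 2 ^ (j + 1) := ⟨_, rfl⟩
    obtain ⟨v, hv⟩ : ∃ v, v = b % 2 ^ (j + 1) := ⟨_, rfl⟩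
    rw [← hu] at e1 l1 h2 ⊢
    rw [← hv] at e2 l2 h2 ⊢
    have hpj : 0 < 2 ^ j := by positivity
    have d1 := Nat.div_add_mod u (2 ^ j)
    have d2 := Nat.div_add_mod v (2 ^ j)
    have c1 : u / 2 ^ j < 2 := by rw [Nat.div_lt_iff_lt_mul hpj]; exact l1
    have c2 : v / 2 ^ j < 2 := by rw [Nat.div_lt_iff_lt_mul hpj]; exact l2
    have e3 : u % 2 ^ j = v % 2 ^ j := by rw [e1, e2, h1']
    rw [e3] at d1
    have hne : u / 2 ^ j ≠ v / 2 ^ j := by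
      intro h
      rw [h] at d1
      exact h2 (by omega)
    refine ⟨((u / 2 ^ j : ℕ) : ℤ) - ((v / 2 ^ j : ℕ) : ℤ), ?_, ?_⟩
    · rcases Nat.lt_succ_iff_lt_or_eq.1 c1 with c3 | c3 <;>
        rcases Nat.lt_succ_iff_lt_or_eq.1 c2 with c4 | c4
      · exact absurd ((Nat.lt_one_iff.1 c3).trans (Nat.lt_one_iff.1 c4).symm) hne
      · rw [Nat.lt_one_iff.1 c3, c4]; decide
      · rw [c3, Nat.lt_one_iff.1 c4]; decide
      · exact absurd (c3.trans c4.symm) hne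
    · have d1' : ((2 ^ j * (u / 2 ^ j) + v % 2 ^ j : ℕ) : ℤ) = (u : ℤ) := by rw [d1]
      have d2' : ((2 ^ j * (v / 2 ^ j) + v % 2 ^ j : ℕ) : ℤ) = (v : ℤ) := by rw [d2]
      push_cast at d1' d2' ⊢
      linarith
  obtain ⟨ε, hε, hεeq⟩ := hdiff
  rw [ha, hb, hword x (j + 1) hj, hword x' (j + 1) hj] at hεeq
  -- the real difference
  obtain ⟨y, hy⟩ : ∃ y, y = (2 : ℝ) ^ (n - (j + 1)) * x := ⟨_, rfl⟩
  obtain ⟨y', hy'⟩ : ∃ y', y' = (2 : ℝ) ^ (n - (j + 1)) * x' := ⟨_, rfl⟩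
  rw [← hy, ← hy'] at hεeq
  have hf := fract_eq (j + 1) y
  have hf' := fract_eq (j + 1) y'
  have hyn : (2 : ℝ) ^ (j + 1) * y = 2 ^ n * x := by
    rw [hy, ← mul_assoc, ← pow_add]
    congr 2
    omega
  have hyn' : (2 : ℝ) ^ (j + 1) * y' = 2 ^ n * x' := by
    rw [hy', ← mul_assoc, ← pow_add]
    congr 2
    omega
  rw [hyn] at hf
  rw [hyn'] at hf'
  have hεr : (cell (j + 1) y : ℝ) - (cell (j + 1) y' : ℝ) = ε * 2 ^ j := by
    exact_mod_cast hεeq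
  have hp : (0 : ℝ) < 2 ^ j := by positivity
  -- the odd integer
  obtain ⟨z, hz⟩ : ∃ z : ℤ, z = ε + 2 * (⌊y⌋ - ⌊y'⌋) := ⟨_, rfl⟩
  have hzodd : Odd z := by
    rw [hz]
    exact hε.add_even (even_two_mul _)
  have hyy : y - y' = θ / 2 ^ (j + 1) + z / 2 := by
    have a1 := Int.floor_add_fract y
    have a2 := Int.floor_add_fract y'
    have e1 : (2 : ℝ) ^ (j + 1) * (Int.fract y - Int.fract y') = θ + ε * 2 ^ j := by
      rw [hθ]
      linarith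
    have e2 : Int.fract y - Int.fract y' = θ / 2 ^ (j + 1) + ε / 2 := by
      have e3 : (2 : ℝ) ^ (j + 1) = 2 * 2 ^ j := by ring
      rw [e3] at e1 ⊢
      field_simp
      linarith
    have e4 : (z : ℝ) = ε + 2 * ((⌊y⌋ : ℝ) - ⌊y'⌋) := by
      rw [hz]
      push_cast
      ring
    rw [e4]
    linarith
  obtain ⟨i, hi⟩ : ∃ i, i = j + w q := ⟨_, rfl⟩
  rw [← hi] at g1 g2 hin
  have hform : (2 : ℝ) ^ (n - i) * (x - x') = θ / 2 ^ i + z / 2 ^ (w q) := by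
    have e1 : (2 : ℝ) ^ (n - (j + 1)) = 2 ^ (n - i) * 2 ^ (w q - 1) := by
      rw [← pow_add]
      congr 1
      omega
    have e2 : (2 : ℝ) ^ i = 2 ^ (w q - 1) * 2 ^ (j + 1) := by
      rw [← pow_add]
      congr 1
      omega
    have e3 : (2 : ℝ) ^ (w q) = 2 ^ (w q - 1) * 2 := by
      rw [← pow_succ]
      congr 1
      omega
    have e4 : (2 : ℝ) ^ (w q - 1) * (2 ^ (n - i) * (x - x')) = y - y' := by
      rw [hy, hy', e1]
      ring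
    rw [e2, e3]
    have hp2 : (0 : ℝ) < 2 ^ (w q - 1) := by positivity
    rw [hyy] at e4
    have e5 : (2 : ℝ) ^ (n - i) * (x - x') = (θ / 2 ^ (j + 1) + z / 2) / 2 ^ (w q - 1) := by
      rw [eq_div_iff hp2.ne']
      linarith
    rw [e5]
    field_simp
  refine hdet q hqq z (θ / 2 ^ i) ((2 : ℝ) ^ (n - i) * x') hzodd ?_ g2 ?_
  · rw [abs_div, abs_of_pos (by positivity : (0 : ℝ) < 2 ^ i)]
    have e2 : (2 : ℝ) ^ i = 2 ^ (w q) * 2 ^ j := by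
      rw [← pow_add]; congr 1; omega
    have e3 : |θ| / 2 ^ i * 3 ^ (2 ^ q) * 2 ^ (w q) = |θ| * 3 ^ (2 ^ q) / 2 ^ j := by
      rw [e2]
      field_simp
    rw [e3, div_le_one (by positivity)]
    have e4 : 2 ^ q ≤ 2 ^ q₀ + j / 2 := by
      have := lev_pow q₀ (j + 1)
      rw [← hq] at this
      simpa using this
    calc |θ| * 3 ^ (2 ^ q) ≤ |θ| * 3 ^ (2 ^ q₀ + j / 2) := by
          apply mul_le_mul_of_nonneg_left _ (abs_nonneg _)
          exact pow_le_pow_right₀ (by norm_num) e4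
      _ = (|θ| * 3 ^ (2 ^ q₀)) * 3 ^ (j / 2) := by rw [pow_add]; ring
      _ ≤ 1 * 3 ^ (j / 2) := by
          apply mul_le_mul_of_nonneg_right hθ1 (by positivity)
      _ ≤ 4 ^ (j / 2) := by
          rw [one_mul]
          exact pow_le_pow_left₀ (by norm_num) (by norm_num) _
      _ = 2 ^ (2 * (j / 2)) := by rw [pow_mul]; norm_num
      _ ≤ 2 ^ j := pow_le_pow_right₀ (by norm_num) (by omega)
  · have : (2 : ℝ) ^ (n - i) * x' + z / 2 ^ (w q) + θ / 2 ^ i = (2 : ℝ) ^ (n - i) * x := by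
      linarith
    rw [this]
    exact g1

end Pool.Agent.Helper61.RH
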