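import Mathlib

/-!
# A Kraft inequality for tries with labels

Words of length `K` over `{0, 1}` are the numbers below `2 ^ K`; the beginning of length `j` of `a`
is `a % 2 ^ j`.
-/

set_option autoImplicit false

open Finset

namespace Pool.Agent.Helper61.RH

/-- the weight of a word with label `L` at the places `j, ..., K - 1` -/
noncomputable def wt (η : ℕ → ℝ) (j K : ℕ) (L : Set ℕ) : ℝ :=
  open Classical in ∏ i ∈ Ico j K, if i ∈ L then η i else 1

theorem wt_nonneg {η : ℕ → ℝ} (h0 : ∀ i, 0 ≤ η i) (j K : ℕ) (L : Set ℕ) : 0 ≤ wt η j K L := by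
  classical
  unfold wt
  refine Finset.prod_nonneg fun i _ => ?_
  split_ifs
  · exact h0 i
  · exact zero_le_one

theorem wt_self (η : ℕ → ℝ) (K : ℕ) (L : Set ℕ) : wt η K K L = 1 := by
  unfold wt
  simp

theorem wt_succ (η : ℕ → ℝ) {j K : ℕ} (h : j < K) (L : Set ℕ) :
    wt η j K L = (open Classical in if j ∈ L then η j else 1) * wt η (j + 1) K L := by
  classical
  unfold wt
  rw [Finset.prod_eq_prod_Ico_succ_bot h]

/-- If at every place where two words of the set `S` branch one of them has a label, then the sum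
of the weights is at most the product of the numbers `1 + η i`. -/
theorem kraft {η : ℕ → ℝ} (h0 : ∀ i, 0 ≤ η i) (h1 : ∀ i, η i ≤ 1) (K : ℕ) (L : ℕ → Set ℕ) :
    ∀ d j : ℕ, j + d = K → ∀ (r : ℕ) (S : Finset ℕ),
      (∀ a ∈ S, a < 2 ^ K ∧ a % 2 ^ j = r) →
      (∀ a ∈ S, ∀ b ∈ S, ∀ i, j ≤ i → i < K → a % 2 ^ i = b % 2 ^ i →
        a % 2 ^ (i + 1) ≠ b % 2 ^ (i + 1) → i ∈ L a ∨ i ∈ L b) →
      ∑ a ∈ S, wt η j K (L a) ≤ ∏ i ∈ Ico j K, (1 + η i) := by
  classical
  intro d
  induction d with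
  | zero =>
    intro j hj r S hS _
    rw [add_zero] at hj
    subst hj
    rw [Finset.Ico_self, Finset.prod_empty]
    have hsub : S ⊆ {r} := by
      intro a ha
      obtain ⟨h2, h3⟩ := hS a ha
      rw [Nat.mod_eq_of_lt h2] at h3
      rw [Finset.mem_singleton]
      exact h3
    calc ∑ a ∈ S, wt η j j (L a) = ∑ a ∈ S, (1 : ℝ) :=
          Finset.sum_congr rfl fun a _ => wt_self η j (L a)
      _ ≤ ∑ a ∈ ({r} : Finset ℕ), (1 : ℝ) :=
          Finset.sum_le_sum_of_subset_of_nonneg hsub fun _ _ _ => zero_le_one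
      _ = 1 := by simp
  | succ d ih =>
    intro j hj r S hS hL
    have hjK : j < K := by omega
    have hpj : 0 < 2 ^ j := by positivity
    have hstep : 2 ^ (j + 1) = 2 * 2 ^ j := by ring
    -- the two halves
    obtain ⟨S0, hS0⟩ : ∃ S0, S0 = S.filter fun a => a % 2 ^ (j + 1) = r := ⟨_, rfl⟩
    obtain ⟨S1, hS1⟩ : ∃ S1, S1 = S.filter fun a => ¬ a % 2 ^ (j + 1) = r := ⟨_, rfl⟩
    have hmod : ∀ a ∈ S, a % 2 ^ (j + 1) = r ∨ a % 2 ^ (j + 1) = r + 2 ^ j := by
      intro a ha
      obtain ⟨-, h3⟩ := hS a ha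
      have h4 : a % 2 ^ (j + 1) % 2 ^ j = r := by
        rw [hstep, Nat.mod_mul_left_mod]
        exact h3
      have h5 : a % 2 ^ (j + 1) < 2 * 2 ^ j := by
        rw [← hstep]
        exact Nat.mod_lt _ (by positivity)
      obtain ⟨m, hm⟩ : ∃ m, m = a % 2 ^ (j + 1) := ⟨_, rfl⟩
      rw [← hm] at h4 h5 ⊢
      have h6 := Nat.div_add_mod m (2 ^ j)
      rw [h4] at h6
      have h7 : m / 2 ^ j < 2 := by
        rw [Nat.div_lt_iff_lt_mul hpj]
        exact h5
      rcases Nat.lt_succ_iff_lt_or_eq.1 h7 with h8 | h8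
      · left
        have : m / 2 ^ j = 0 := Nat.lt_one_iff.1 h8
        rw [this] at h6
        omega
      · right
        rw [h8] at h6
        omega
    have hp0 : ∑ a ∈ S0, wt η (j + 1) K (L a) ≤ ∏ i ∈ Ico (j + 1) K, (1 + η i) := by
      refine ih (j + 1) (by omega) r S0 ?_ ?_
      · intro a ha
        rw [hS0, Finset.mem_filter] at ha
        exact ⟨(hS a ha.1).1, ha.2⟩
      · intro a ha b hb i hi hiK h2 h3
        rw [hS0, Finset.mem_filter] at ha hb
        exact hL a ha.1 b hb.1 i (by omega) hiK h2 h3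
    have hp1 : ∑ a ∈ S1, wt η (j + 1) K (L a) ≤ ∏ i ∈ Ico (j + 1) K, (1 + η i) := by
      refine ih (j + 1) (by omega) (r + 2 ^ j) S1 ?_ ?_
      · intro a ha
        rw [hS1, Finset.mem_filter] at ha
        exact ⟨(hS a ha.1).1, (hmod a ha.1).resolve_left ha.2⟩
      · intro a ha b hb i hi hiK h2 h3
        rw [hS1, Finset.mem_filter] at ha hb
        exact hL a ha.1 b hb.1 i (by omega) hiK h2 h3
    have hPnn : 0 ≤ ∏ i ∈ Ico (j + 1) K, (1 + η i) :=
      Finset.prod_nonneg fun i _ => by have := h0 i; linarith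
    have hfac : ∀ (T : Finset ℕ), ∑ a ∈ T, wt η j K (L a) ≤ ∑ a ∈ T, wt η (j + 1) K (L a) := by
      intro T
      refine Finset.sum_le_sum fun a _ => ?_
      rw [wt_succ η hjK]
      have h2 := wt_nonneg h0 (j + 1) K (L a)
      have h3 := h1 j
      split_ifs
      · nlinarith
      · rw [one_mul]
    have hfacη : ∀ (T : Finset ℕ), (∀ a ∈ T, j ∈ L a) →
        ∑ a ∈ T, wt η j K (L a) = η j * ∑ a ∈ T, wt η (j + 1) K (L a) := by
      intro T hT
      rw [Finset.mul_sum]
      refine Finset.sum_congr rfl fun a ha => ?_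
      rw [wt_succ η hjK, if_pos (hT a ha)]
    have hsplit : ∑ a ∈ S, wt η j K (L a) = ∑ a ∈ S0, wt η j K (L a) + ∑ a ∈ S1, wt η j K (L a) := by
      rw [hS0, hS1]
      exact (Finset.sum_filter_add_sum_filter_not S _ _).symm
    rw [hsplit, Finset.prod_eq_prod_Ico_succ_bot hjK]
    by_cases hall : ∀ a ∈ S0, j ∈ L a
    · have e0 := hfacη S0 hall
      have e1 := hfac S1
      have h2 := h0 j
      rw [e0]
      nlinarith
    · push Not at hall
      obtain ⟨a0, ha0, hn0⟩ := hall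
      have hall1 : ∀ b ∈ S1, j ∈ L b := by
        intro b hb
        have ha0' : a0 ∈ S ∧ a0 % 2 ^ (j + 1) = r := by
          rw [hS0, Finset.mem_filter] at ha0
          exact ha0
        have hb' : b ∈ S ∧ ¬ b % 2 ^ (j + 1) = r := by
          rw [hS1, Finset.mem_filter] at hb
          exact hb
        refine (hL a0 ha0'.1 b hb'.1 j le_rfl hjK ?_ ?_).resolve_left hn0
        · rw [(hS a0 ha0'.1).2, (hS b hb'.1).2]
        · rw [ha0'.2]
          exact fun h => hb'.2 h.symm
      have e1 := hfacη S1 hall1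
      have e0 := hfac S0
      have h2 := h0 j
      rw [e1]
      nlinarith

/-- Gibbs' inequality -/
theorem gibbs (S : Finset ℕ) (m p : ℕ → ℝ) (hm : ∀ i ∈ S, 0 < m i) (hp : ∀ i ∈ S, 0 < p i)
    (hm1 : ∑ i ∈ S, m i = 1) (hp1 : ∑ i ∈ S, p i ≤ 1) :
    ∑ i ∈ S, Real.negMulLog (m i) ≤ ∑ i ∈ S, m i * Real.log (1 / p i) := by
  have h1 : ∀ i ∈ S, Real.negMulLog (m i) - m i * Real.log (1 / p i) ≤ p i - m i := by
    intro i hi
    have a := hm i hi
    have b := hp i hi
    have h2 := Real.log_le_sub_one_of_pos (div_pos b a)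
    rw [Real.log_div b.ne' a.ne'] at h2
    rw [Real.log_div one_ne_zero b.ne', Real.log_one]
    unfold Real.negMulLog
    have h3 : m i * (Real.log (p i) - Real.log (m i)) ≤ m i * (p i / m i - 1) :=
      mul_le_mul_of_nonneg_left h2 a.le
    have h4 : m i * (p i / m i - 1) = p i - m i := by
      field_simp
    rw [h4] at h3
    linarith
  have h2 := Finset.sum_le_sum h1
  rw [Finset.sum_sub_distrib, Finset.sum_sub_distrib, hm1] at h2
  linarith

end Pool.Agent.Helper61.RH
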