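import Mathlib
import Pool.Agent.Helper61.RH.Branch
import Pool.Agent.Helper61.RH.Kraft
import Pool.Agent.Helper75.RE.Cover

/-!
# The entropy inequality

The Shannon entropy of the dyadic arcs of length `2 ^ (-K)` is bounded by the measures of the sets
of bad points.
-/

set_option autoImplicit false

open MeasureTheory Finset

namespace Pool.Agent.Helper61.RH

open Pool.Agent.Helper61.FR
open Pool.Agent.Helper40.TMA (lev lev_ge lev_mono lev_pow lev_lt)
open Helper75.RE (cell measurable_cell cell_fract)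

theorem log_wt {η : ℕ → ℝ} (h0 : ∀ i, 0 < η i) (K : ℕ) (L : Set ℕ) :
    Real.log (wt η 0 K L) = - ∑ j ∈ range K, Set.indicator L (fun j => Real.log (1 / η j)) j := by
  classical
  unfold wt
  rw [← Finset.range_eq_Ico, Real.log_prod, ← Finset.sum_neg_distrib]
  · refine Finset.sum_congr rfl fun j _ => ?_
    by_cases h : j ∈ L
    · rw [if_pos h, Set.indicator_of_mem h, one_div, Real.log_inv, neg_neg]
    · rw [if_neg h, Set.indicator_of_notMem h, Real.log_one, neg_zero]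
  · intro j _
    split_ifs
    · exact (h0 j).ne'
    · exact one_ne_zero

theorem wt_pos {η : ℕ → ℝ} (h0 : ∀ i, 0 < η i) (j K : ℕ) (L : Set ℕ) : 0 < wt η j K L := by
  classical
  unfold wt
  refine Finset.prod_pos fun i _ => ?_
  split_ifs
  · exact h0 i
  · exact zero_lt_one

/-- The entropy inequality. -/
theorem entropy_le {μ : Measure ℝ} (h : Inv23 μ) (q₀ : ℕ) (w : ℕ → ℕ)
    (hw1 : ∀ q, q₀ ≤ q → 1 ≤ w q) (hw2 : ∀ q, q₀ ≤ q → w q ≤ 2 ^ q) (G : ℕ → Set ℝ)
    (hGm : ∀ q, MeasurableSet (G q)) (hGp : ∀ q x, Int.fract x ∈ G q ↔ x ∈ G q)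
    (hdet : ∀ q, q₀ ≤ q → ∀ (d : ℤ) (τ x : ℝ), Odd d →
      |τ| * 3 ^ (2 ^ q) * 2 ^ (w q) ≤ 1 → x ∈ G q → x + d / 2 ^ (w q) + τ ∈ G q → False)
    (η : ℕ → ℝ) (h0 : ∀ i, 0 < η i) (h1 : ∀ i, η i ≤ 1) (K : ℕ) :
    ∑ i ∈ range (2 ^ K), Real.negMulLog (μ.real {x | cell K x = i}) ≤
      Real.log (3 ^ (2 ^ q₀)) + Real.log (∏ i ∈ range K, (1 + η i)) +
        ∑ j ∈ range K, Real.log (1 / η j) * μ.real (G (lev q₀ (j + 1)))ᶜ := by
  classical
  have hprob := h.prob
  obtain ⟨n, hn⟩ : ∃ n, n = K + 2 ^ lev q₀ K := ⟨_, rfl⟩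
  -- the bad sets
  obtain ⟨B, hB⟩ : ∃ B : ℕ → Set ℝ, B = fun j => {x : ℝ |
    Int.fract (2 ^ (n - (j + w (lev q₀ (j + 1)))) * x) ∈ (G (lev q₀ (j + 1)))ᶜ} := ⟨_, rfl⟩
  have hBm : ∀ j, MeasurableSet (B j) := by
    intro j
    rw [hB]
    exact (preserving_two_pow h _).measurable (hGm _).compl
  have hBμ : ∀ j, μ.real (B j) = μ.real (G (lev q₀ (j + 1)))ᶜ := by
    intro j
    have h3 := (preserving_two_pow h (n - (j + w (lev q₀ (j + 1))))).measure_preimage
      (hGm (lev q₀ (j + 1))).compl.nullMeasurableSet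
    rw [hB]
    simp only [Measure.real]
    exact congrArg ENNReal.toReal h3
  obtain ⟨c, hc⟩ : ∃ c : ℕ → ℝ, c = fun j => Real.log (1 / η j) := ⟨_, rfl⟩
  have hc0 : ∀ j, 0 ≤ c j := by
    intro j
    rw [hc]
    apply Real.log_nonneg
    rw [le_div_iff₀ (h0 j), one_mul]
    exact h1 j
  obtain ⟨ℓ, hℓ⟩ : ∃ ℓ : ℝ → ℝ, ℓ = fun x => ∑ j ∈ range K, (B j).indicator (fun _ => c j) x :=
    ⟨_, rfl⟩
  have hℓi : ∀ j, Integrable ((B j).indicator (fun _ : ℝ => c j)) μ := fun j =>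
    (integrable_const (c j)).indicator (hBm j)
  have hℓint : Integrable ℓ μ := by
    rw [hℓ]
    exact integrable_finsetSum _ fun j _ => hℓi j
  have hℓ0 : ∀ x, 0 ≤ ℓ x := by
    intro x
    rw [hℓ]
    exact Finset.sum_nonneg fun j _ => Set.indicator_nonneg (fun _ _ => hc0 j) x
  have hℓeq : ∫ x, ℓ x ∂μ = ∑ j ∈ range K, c j * μ.real (G (lev q₀ (j + 1)))ᶜ := by
    rw [hℓ, integral_finsetSum _ fun j _ => hℓi j]
    refine Finset.sum_congr rfl fun j _ => ?_
    rw [integral_indicator_const _ (hBm j), smul_eq_mul, hBμ, mul_comm]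
  -- the label of a point
  obtain ⟨A, hA⟩ : ∃ A : ℝ → Set ℕ, A = fun x => {j | x ∈ B j} := ⟨_, rfl⟩
  have hAl : ∀ x, Real.log (wt η 0 K (A x)) = - ℓ x := by
    intro x
    rw [log_wt h0, hℓ]
    congr 1
    refine Finset.sum_congr rfl fun j _ => ?_
    rw [hA, hc]
    by_cases hx : x ∈ B j
    · rw [Set.indicator_of_mem (show j ∈ {j | x ∈ B j} from hx), Set.indicator_of_mem hx]
    · rw [Set.indicator_of_notMem (show j ∉ {j | x ∈ B j} from hx), Set.indicator_of_notMem hx]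
  -- the arcs
  obtain ⟨E, hE⟩ : ∃ E : ℕ → Set ℝ, E = fun i => {x : ℝ | cell K (2 ^ (n - K) * x) = i} :=
    ⟨_, rfl⟩
  have hEm : ∀ i, MeasurableSet (E i) := by
    intro i
    rw [hE]
    exact (measurable_cell K).comp (measurable_const.mul measurable_id)
      (measurableSet_singleton i)
  have hEμ : ∀ i, μ.real (E i) = μ.real {x | cell K x = i} := by
    intro i
    have h3 := (preserving_two_pow h (n - K)).measure_preimage
      ((measurable_cell K) (measurableSet_singleton i)).nullMeasurableSet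
    have h4 : (fun x : ℝ => Int.fract (2 ^ (n - K) * x)) ⁻¹' (cell K ⁻¹' {i}) = E i := by
      rw [hE]
      ext x
      simp only [Set.mem_preimage, cell_fract, Set.mem_singleton_iff, Set.mem_ofPred_eq]
    rw [h4] at h3
    simp only [Measure.real]
    rw [h3]
    rfl
  have hElt : ∀ x, cell K (2 ^ (n - K) * x) < 2 ^ K := by
    intro x
    unfold cell
    rw [Nat.floor_lt (mul_nonneg (by positivity) (Int.fract_nonneg _))]
    push_cast
    have := Int.fract_lt_one ((2 : ℝ) ^ (n - K) * x)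
    have h2 : (0 : ℝ) < 2 ^ K := by positivity
    nlinarith
  have hEsum : ∑ i ∈ range (2 ^ K), μ.real (E i) = 1 := by
    rw [← measureReal_biUnion_finset]
    · have : (⋃ i ∈ range (2 ^ K), E i) = Set.univ := by
        rw [Set.eq_univ_iff_forall]
        intro x
        rw [Set.mem_iUnion₂]
        refine ⟨cell K (2 ^ (n - K) * x), Finset.mem_range.2 (hElt x), ?_⟩
        rw [hE]
        rfl
      rw [this]
      exact probReal_univ
    · intro i _ j _ hij
      refine Set.disjoint_left.2 fun x hx hx' => hij ?_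
      rw [hE] at hx hx'
      exact hx.symm.trans hx'
    · exact fun i _ => hEm i
  obtain ⟨S, hS⟩ : ∃ S, S = (range (2 ^ K)).filter fun i => 0 < μ.real (E i) := ⟨_, rfl⟩
  have hSsum : ∑ i ∈ S, μ.real (E i) = 1 := by
    rw [← hEsum, hS]
    refine Finset.sum_subset (Finset.filter_subset _ _) fun i hi hi' => ?_
    rw [Finset.mem_filter, not_and] at hi'
    exact le_antisymm (not_lt.1 (hi' hi)) measureReal_nonneg
  -- a point of the arc with few bad times
  have hex : ∀ i, ∃ x, i ∈ S → x ∈ E i ∧ μ.real (E i) * ℓ x ≤ ∫ y in E i, ℓ y ∂μ := by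
    intro i
    by_cases hi : i ∈ S
    · have hi' : 0 < μ.real (E i) := by
        rw [hS, Finset.mem_filter] at hi
        exact hi.2
      have hne : μ (E i) ≠ 0 := by
        intro h5
        rw [measureReal_def, h5, ENNReal.toReal_zero] at hi'
        exact lt_irrefl _ hi'
      obtain ⟨x, hx, hx'⟩ := exists_le_setAverage hne (measure_ne_top μ _) hℓint.integrableOn
      refine ⟨x, fun _ => ⟨hx, ?_⟩⟩
      rw [setAverage_eq, smul_eq_mul] at hx'
      calc μ.real (E i) * ℓ x ≤ μ.real (E i) * ((μ.real (E i))⁻¹ * ∫ y in E i, ℓ y ∂μ) :=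
            mul_le_mul_of_nonneg_left hx' hi'.le
        _ = ∫ y in E i, ℓ y ∂μ := by
            rw [← mul_assoc, mul_inv_cancel₀ hi'.ne', one_mul]
    · exact ⟨0, fun h5 => absurd h5 hi⟩
  choose X hX using hex
  -- the classes
  obtain ⟨R, hR⟩ : ∃ R : ℕ, R = 3 ^ (2 ^ q₀) := ⟨_, rfl⟩
  have hR0 : (0 : ℝ) < R := by rw [hR]; positivity
  obtain ⟨cl, hcl⟩ : ∃ cl : ℝ → ℕ, cl = fun x =>
    ⌊(3 : ℝ) ^ (2 ^ q₀) * Int.fract ((2 : ℝ) ^ n * x)⌋₊ := ⟨_, rfl⟩
  have hcllt : ∀ x, cl x < R := by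
    intro x
    rw [hcl, hR]
    show ⌊(3 : ℝ) ^ (2 ^ q₀) * Int.fract ((2 : ℝ) ^ n * x)⌋₊ < 3 ^ (2 ^ q₀)
    rw [Nat.floor_lt (mul_nonneg (by positivity) (Int.fract_nonneg _))]
    push_cast
    have := Int.fract_lt_one ((2 : ℝ) ^ n * x)
    have h3 : (0 : ℝ) < 3 ^ (2 ^ q₀) := by positivity
    nlinarith
  obtain ⟨P, hP⟩ : ∃ P : ℝ, P = ∏ i ∈ range K, (1 + η i) := ⟨_, rfl⟩
  have hP0 : 0 < P := by
    rw [hP]
    exact Finset.prod_pos fun i _ => by have := h0 i; linarith
  have hkraft : ∀ r, ∑ i ∈ S.filter (fun i => cl (X i) = r), wt η 0 K (A (X i)) ≤ P := by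
    intro r
    rw [hP, Finset.range_eq_Ico]
    refine kraft (fun i => (h0 i).le) h1 K (fun i => A (X i)) K 0 (zero_add K) 0 _ ?_ ?_
    · intro a ha
      rw [Finset.mem_filter, hS, Finset.mem_filter, Finset.mem_range] at ha
      exact ⟨ha.1.1, by rw [pow_zero, Nat.mod_one]⟩
    · intro a ha b hb j _ hj e1 e2
      rw [Finset.mem_filter] at ha hb
      have ea : cell K (2 ^ (n - K) * X a) = a := by
        have := (hX a ha.1).1
        rw [hE] at this
        exact this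
      have eb : cell K (2 ^ (n - K) * X b) = b := by
        have := (hX b hb.1).1
        rw [hE] at this
        exact this
      have h5 : cl (X a) = cl (X b) := by rw [ha.2, hb.2]
      rw [hcl] at h5
      have h6 := branch q₀ w hw1 hw2 G hdet K n hn (X a) (X b) h5 j hj
        (by rw [ea, eb]; exact e1) (by rw [ea, eb]; exact e2)
      rw [hA, hB]
      refine h6.imp (fun h7 => ?_) (fun h7 => ?_)
      · show Int.fract _ ∈ (G (lev q₀ (j + 1)))ᶜ
        rw [Set.mem_compl_iff, hGp]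
        exact h7
      · show Int.fract _ ∈ (G (lev q₀ (j + 1)))ᶜ
        rw [Set.mem_compl_iff, hGp]
        exact h7
  -- the comparison distribution
  obtain ⟨p, hp⟩ : ∃ p : ℕ → ℝ, p = fun i => wt η 0 K (A (X i)) / (R * P) := ⟨_, rfl⟩
  have hp0 : ∀ i, 0 < p i := by
    intro i
    rw [hp]
    exact div_pos (wt_pos h0 0 K _) (mul_pos hR0 hP0)
  have hp1 : ∑ i ∈ S, p i ≤ 1 := by
    have e1 : ∑ i ∈ S, wt η 0 K (A (X i)) =
        ∑ r ∈ range R, ∑ i ∈ S.filter (fun i => cl (X i) = r), wt η 0 K (A (X i)) :=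
      (Finset.sum_fiberwise_of_maps_to (fun i _ => Finset.mem_range.2 (hcllt (X i))) _).symm
    have e2 : ∑ i ∈ S, wt η 0 K (A (X i)) ≤ R * P := by
      rw [e1]
      calc _ ≤ ∑ r ∈ range R, P := Finset.sum_le_sum fun r _ => hkraft r
        _ = R * P := by rw [Finset.sum_const, Finset.card_range, nsmul_eq_mul]
    rw [hp]
    show ∑ i ∈ S, wt η 0 K (A (X i)) / (R * P) ≤ 1
    rw [← Finset.sum_div, div_le_one (mul_pos hR0 hP0)]
    exact e2
  have hgibbs := gibbs S (fun i => μ.real (E i)) p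
    (fun i hi => by rw [hS, Finset.mem_filter] at hi; exact hi.2) (fun i _ => hp0 i) hSsum hp1
  have hlogp : ∀ i, Real.log (1 / p i) = Real.log R + Real.log P + ℓ (X i) := by
    intro i
    rw [hp, one_div, Real.log_inv]
    show -Real.log (wt η 0 K (A (X i)) / (R * P)) = _
    rw [Real.log_div (wt_pos h0 0 K _).ne' (mul_pos hR0 hP0).ne', hAl,
      Real.log_mul hR0.ne' hP0.ne']
    ring
  have e3 : ∑ i ∈ range (2 ^ K), Real.negMulLog (μ.real {x | cell K x = i}) =
      ∑ i ∈ S, Real.negMulLog (μ.real (E i)) := by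
    have e4 : ∑ i ∈ range (2 ^ K), Real.negMulLog (μ.real {x | cell K x = i}) =
        ∑ i ∈ range (2 ^ K), Real.negMulLog (μ.real (E i)) :=
      Finset.sum_congr rfl fun i _ => by rw [hEμ i]
    rw [e4, hS]
    symm
    refine Finset.sum_subset (Finset.filter_subset _ _) fun i hi hi' => ?_
    rw [Finset.mem_filter, not_and] at hi'
    have : μ.real (E i) = 0 := le_antisymm (not_lt.1 (hi' hi)) measureReal_nonneg
    rw [this, Real.negMulLog_zero]
  have e5 : ∑ i ∈ S, ∫ y in E i, ℓ y ∂μ ≤ ∫ y, ℓ y ∂μ := by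
    rw [← integral_biUnion_finset S (fun i _ => hEm i) ?_ (fun i _ => hℓint.integrableOn)]
    · exact setIntegral_le_integral hℓint (Filter.Eventually.of_forall hℓ0)
    · intro i _ j _ hij
      refine Set.disjoint_left.2 fun x hx hx' => hij ?_
      rw [hE] at hx hx'
      exact hx.symm.trans hx'
  rw [e3]
  calc ∑ i ∈ S, Real.negMulLog (μ.real (E i))
      ≤ ∑ i ∈ S, μ.real (E i) * Real.log (1 / p i) := hgibbs
    _ = (Real.log R + Real.log P) * ∑ i ∈ S, μ.real (E i) + ∑ i ∈ S, μ.real (E i) * ℓ (X i) := by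
        rw [Finset.mul_sum, ← Finset.sum_add_distrib]
        refine Finset.sum_congr rfl fun i _ => ?_
        rw [hlogp]
        ring
    _ ≤ (Real.log R + Real.log P) + ∑ i ∈ S, ∫ y in E i, ℓ y ∂μ := by
        rw [hSsum, mul_one]
        gcongr with i hi
        exact (hX i hi).2
    _ ≤ _ := by
        rw [hℓeq] at e5
        have e6 : (R : ℝ) = 3 ^ (2 ^ q₀) := by rw [hR]; push_cast; rfl
        rw [e6, hP]
        rw [hc] at e5
        linarith

end Pool.Agent.Helper61.RH
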