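import Mathlib
import Pool.Agent.Helper61.RH.Entropy
import Pool.Agent.Helper75.RE.Arcs

/-!
# The entropy inequality on the circle

For every measure invariant under `x ↦ 2 x` and `x ↦ 3 x` the Shannon entropy of the dyadic arcs of
length `2 ^ (-K)`, `K ≤ 2 ^ Q`, is at most `20` times `1` plus the sum over `q < Q` of
`(q + 1) 2 ^ q` times the measure of the points with complex orbits.
-/

set_option autoImplicit false

open MeasureTheory Finset Filter

namespace Pool.Agent.Helper61.RH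

open Pool.Agent.Helper61.FR
open Pool.Agent.Helper40.TMA (lev lev_ge lev_mono lev_pow lev_lt)
open Helper75.RE

/-- the Shannon entropy of the partition into the dyadic arcs of length `2 ^ (-K)` -/
noncomputable def ent (ν : Measure Tor) (K : ℕ) : ℝ :=
  ∑ i ∈ range (2 ^ K), Real.negMulLog (ν.real (arc K i))

theorem real_arc {ν : Measure Tor} {μ : Measure ℝ} (hν : μ.map (fun y : ℝ => (y : Tor)) = ν)
    (K i : ℕ) (hi : i < 2 ^ K) : ν.real (arc K i) = μ.real {x | cell K x = i} := by
  rw [measureReal_def, measureReal_def, ← hν,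
    Measure.map_apply AddCircle.measurable_mk' (measurableSet_arc K i)]
  congr 2
  ext x
  rw [Set.mem_preimage, mem_arc_iff, idx_coe, Nat.mod_eq_of_lt hi]
  rfl

theorem circle_entropy {ν : Measure Tor} [IsProbabilityMeasure ν]
    (h2 : MeasurePreserving (fun x : Tor => (2 : ℕ) • x) ν ν)
    (h3 : MeasurePreserving (fun x : Tor => (3 : ℕ) • x) ν ν) (q₀ : ℕ) (hq₀ : 3 ≤ q₀)
    (η : ℕ → ℝ) (h0 : ∀ i, 0 < η i) (h1 : ∀ i, η i ≤ 1) (K : ℕ) :
    ent ν K ≤ Real.log (3 ^ (2 ^ q₀)) + Real.log (∏ i ∈ range K, (1 + η i)) +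
      ∑ j ∈ range K, Real.log (1 / η j) * ν.real (few (lev q₀ (j + 1)))ᶜ := by
  obtain ⟨μ, hμ, hν, -⟩ := exists_inv23 ν h2 h3
  have hprob := hμ.prob
  have key := entropy_le hμ q₀ (fun q => q + 2)
    (fun q _ => by
      show 1 ≤ q + 2
      omega)
    (fun q hq => by
      show q + 2 ≤ 2 ^ q
      have : q - 1 < 2 ^ (q - 1) := Nat.lt_two_pow_self
      have e : 2 ^ q = 2 * 2 ^ (q - 1) := by
        rw [← pow_succ']
        congr 1
        omega
      omega)
    (fun q => Few q) (fun q => measurableSet_few q) (fun q x => few_fract q x)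
    (fun q hq d τ x hd hτ hx hx' => few_excl q (by omega) d τ x hd hτ hx hx') η h0 h1 K
  have e1 : ent ν K = ∑ i ∈ range (2 ^ K), Real.negMulLog (μ.real {x | cell K x = i}) := by
    unfold ent
    refine Finset.sum_congr rfl fun i hi => ?_
    rw [real_arc hν K i (Finset.mem_range.1 hi)]
  rw [e1]
  refine key.trans ?_
  gcongr with j hj
  · apply Real.log_nonneg
    rw [le_div_iff₀ (h0 j), one_mul]
    exact h1 j
  · rw [measureReal_def, measureReal_def]
    refine ENNReal.toReal_mono (measure_ne_top _ _) ?_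
    calc μ (Few (lev q₀ (j + 1)))ᶜ ≤ μ ((fun y : ℝ => (y : Tor)) ⁻¹' (few (lev q₀ (j + 1)))ᶜ) :=
          measure_mono fun y hy hy' => hy (few_sub _ y hy')
      _ ≤ μ.map (fun y : ℝ => (y : Tor)) (few (lev q₀ (j + 1)))ᶜ :=
          Measure.le_map_apply AddCircle.measurable_mk'.aemeasurable _
      _ = ν (few (lev q₀ (j + 1)))ᶜ := by rw [hν]

theorem sum_arc {ν : Measure Tor} [IsProbabilityMeasure ν] (K : ℕ) :
    ∑ i ∈ range (2 ^ K), ν.real (arc K i) = 1 := by
  rw [← measureReal_biUnion_finset]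
  · have : (⋃ i ∈ range (2 ^ K), arc K i) = Set.univ := by
      rw [Set.eq_univ_iff_forall]
      intro x
      rw [Set.mem_iUnion₂]
      refine ⟨idx K x, Finset.mem_range.2 (idx_lt K x), ?_⟩
      rw [mem_arc_iff, Nat.mod_eq_of_lt (idx_lt K x)]
    rw [this]
    exact probReal_univ
  · intro i hi j hj hij
    rw [Finset.mem_coe, Finset.mem_range] at hi hj
    refine Set.disjoint_left.2 fun x hx hx' => hij ?_
    rw [mem_arc_iff, Nat.mod_eq_of_lt hi] at hx
    rw [mem_arc_iff, Nat.mod_eq_of_lt hj] at hx'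
    exact hx.symm.trans hx'
  · exact fun i _ => measurableSet_arc K i

/-- the trivial bound for the entropy -/
theorem ent_le_log (ν : Measure Tor) [IsProbabilityMeasure ν] (K : ℕ) :
    ent ν K ≤ K * Real.log 2 := by
  classical
  obtain ⟨S, hS⟩ : ∃ S, S = (range (2 ^ K)).filter fun i => 0 < ν.real (arc K i) := ⟨_, rfl⟩
  have hS0 : ∀ i ∈ range (2 ^ K), i ∉ S → ν.real (arc K i) = 0 := by
    intro i hi hi'
    rw [hS, Finset.mem_filter, not_and] at hi'
    exact le_antisymm (not_lt.1 (hi' hi)) measureReal_nonneg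
  have hSr : S ⊆ range (2 ^ K) := by
    rw [hS]
    exact Finset.filter_subset _ _
  have h1 : ∑ i ∈ S, ν.real (arc K i) = 1 :=
    (Finset.sum_subset hSr hS0).trans (sum_arc (ν := ν) K)
  have h2 : ent ν K = ∑ i ∈ S, Real.negMulLog (ν.real (arc K i)) := by
    unfold ent
    symm
    refine Finset.sum_subset hSr fun i hi hi' => ?_
    rw [hS0 i hi hi', Real.negMulLog_zero]
  have hp : (0 : ℝ) < 2 ^ K := by positivity
  have h3 := gibbs S (fun i => ν.real (arc K i)) (fun _ => 1 / 2 ^ K)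
    (fun i hi => by rw [hS, Finset.mem_filter] at hi; exact hi.2) (fun i _ => by positivity) h1
    (by
      rw [Finset.sum_const, nsmul_eq_mul, mul_one_div, div_le_one hp]
      have h4 := Finset.card_le_card hSr
      rw [Finset.card_range] at h4
      exact_mod_cast h4)
  rw [h2]
  refine h3.trans (le_of_eq ?_)
  rw [← Finset.sum_mul, h1, one_mul, one_div_one_div, Real.log_pow]

/-- The universal entropy inequality. -/
theorem ent_le {ν : Measure Tor} [IsProbabilityMeasure ν]
    (h2 : MeasurePreserving (fun x : Tor => (2 : ℕ) • x) ν ν)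
    (h3 : MeasurePreserving (fun x : Tor => (3 : ℕ) • x) ν ν) (Q K : ℕ) (hK : K ≤ 2 ^ Q) :
    ent ν K ≤ 20 * (1 + ∑ q ∈ range Q, ((q : ℝ) + 1) * (2 ^ q * ν.real (few q)ᶜ)) := by
  classical
  have hl2 : Real.log 2 < 0.6931471808 := Real.log_two_lt_d9
  have hsum0 : 0 ≤ ∑ q ∈ range Q, ((q : ℝ) + 1) * (2 ^ q * ν.real (few q)ᶜ) :=
    Finset.sum_nonneg fun q _ => by positivity
  rcases Nat.lt_or_ge Q 4 with hQ | hQ
  · have h4 : K ≤ 8 := hK.trans (by
      calc 2 ^ Q ≤ 2 ^ 3 := Nat.pow_le_pow_right (by norm_num) (by omega)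
        _ = 8 := by norm_num)
    have h5 : (K : ℝ) ≤ 8 := by exact_mod_cast h4
    have h6 := ent_le_log ν K
    have h7 : 0 < Real.log 2 := Real.log_pos (by norm_num)
    nlinarith
  obtain ⟨η, hη⟩ : ∃ η : ℕ → ℝ, η = fun j : ℕ => (((j : ℝ) + 2) ^ 2)⁻¹ := ⟨_, rfl⟩
  have h0 : ∀ i, 0 < η i := by
    intro i
    rw [hη]
    positivity
  have h1 : ∀ i, η i ≤ 1 := by
    intro i
    rw [hη]
    apply inv_le_one_of_one_le₀
    have : (0 : ℝ) ≤ i := Nat.cast_nonneg i
    nlinarith
  have key := circle_entropy h2 h3 3 le_rfl η h0 h1 K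
  -- the product
  have hprod : Real.log (∏ i ∈ range K, (1 + η i)) ≤ 1 := by
    rw [Real.log_prod fun i _ => by have := h0 i; linarith]
    have e1 : ∀ i ∈ range K, Real.log (1 + η i) ≤ 1 / ((i : ℝ) + 1) - 1 / ((i : ℝ) + 1 + 1) := by
      intro i _
      have e2 := Real.log_le_sub_one_of_pos (by have := h0 i; linarith : 0 < 1 + η i)
      have e3 : (0 : ℝ) ≤ i := Nat.cast_nonneg i
      have e4 : η i ≤ 1 / ((i : ℝ) + 1) - 1 / ((i : ℝ) + 1 + 1) := by
        rw [hη]
        show (((i : ℝ) + 2) ^ 2)⁻¹ ≤ _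
        rw [div_sub_div _ _ (by positivity) (by positivity), inv_eq_one_div,
          div_le_div_iff₀ (by positivity) (by positivity)]
        nlinarith
      linarith
    refine (Finset.sum_le_sum e1).trans ?_
    have e5 := Finset.sum_range_sub' (fun i : ℕ => 1 / ((i : ℝ) + 1)) K
    push_cast at e5
    rw [e5]
    have e6 : (0 : ℝ) ≤ 1 / ((K : ℝ) + 1) := by positivity
    norm_num
    positivity
  have hlog3 : Real.log (3 ^ (2 ^ 3)) ≤ 16 := by
    rw [Real.log_pow]
    have := Real.log_le_sub_one_of_pos (by norm_num : (0 : ℝ) < 3)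
    push_cast
    linarith
  -- the sum over the levels
  have hmaps : ∀ j ∈ range K, lev 3 (j + 1) ∈ range Q := by
    intro j hj
    rw [Finset.mem_range] at hj ⊢
    have e1 := lev_pow 3 (j + 1)
    simp only [Nat.add_sub_cancel] at e1
    have e2 : 2 ^ Q = 2 * 2 ^ (Q - 1) := by
      rw [← pow_succ']
      congr 1
      omega
    have e3 : 2 ^ 3 ≤ 2 ^ (Q - 1) := Nat.pow_le_pow_right (by norm_num) (by omega)
    have e4 : 2 ^ lev 3 (j + 1) < 2 ^ Q := by omega
    exact (Nat.pow_lt_pow_iff_right (by norm_num)).1 e4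
  have hsum : ∑ j ∈ range K, Real.log (1 / η j) * ν.real (few (lev 3 (j + 1)))ᶜ ≤
      20 * ∑ q ∈ range Q, ((q : ℝ) + 1) * (2 ^ q * ν.real (few q)ᶜ) := by
    rw [← Finset.sum_fiberwise_of_maps_to hmaps, Finset.mul_sum]
    refine Finset.sum_le_sum fun q _ => ?_
    have hb : (0 : ℝ) ≤ ν.real (few q)ᶜ := measureReal_nonneg
    have e1 : ∀ j ∈ (range K).filter (fun j => lev 3 (j + 1) = q),
        Real.log (1 / η j) * ν.real (few (lev 3 (j + 1)))ᶜ ≤
          (21 / 5 * ((q : ℝ) + 1)) * ν.real (few q)ᶜ := by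
      intro j hj
      rw [Finset.mem_filter] at hj
      rw [hj.2]
      refine mul_le_mul_of_nonneg_right ?_ hb
      have e2 : Real.log (1 / η j) = 2 * Real.log ((j : ℝ) + 2) := by
        rw [hη]
        show Real.log (1 / (((j : ℝ) + 2) ^ 2)⁻¹) = _
        rw [one_div, inv_inv, Real.log_pow]
        push_cast
        ring
      have e3 : j + 2 ≤ 2 ^ (q + 3) := by
        have e4 := lev_lt 3 (j + 1)
        rw [hj.2] at e4
        simp only [Nat.add_sub_cancel] at e4
        have e5 : 2 ^ (q + 3) = 4 * 2 ^ (q + 1) := by ring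
        have e6 : 1 ≤ 2 ^ (q + 1) := Nat.one_le_two_pow
        omega
      have e4 : Real.log ((j : ℝ) + 2) ≤ (q + 3) * Real.log 2 := by
        have e5 : ((j : ℝ) + 2) ≤ 2 ^ (q + 3) := by exact_mod_cast e3
        have e6 := Real.log_le_log (by positivity) e5
        rw [Real.log_pow] at e6
        push_cast at e6
        exact e6
      rw [e2]
      have e7 : (0 : ℝ) ≤ q := Nat.cast_nonneg q
      nlinarith
    have e2 : ((range K).filter (fun j => lev 3 (j + 1) = q)).card ≤ 2 ^ (q + 2) := by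
      have e3 : (range K).filter (fun j => lev 3 (j + 1) = q) ⊆ range (2 ^ (q + 2)) := by
        intro j hj
        rw [Finset.mem_filter] at hj
        rw [Finset.mem_range]
        have e4 := lev_lt 3 (j + 1)
        rw [hj.2] at e4
        simp only [Nat.add_sub_cancel] at e4
        have e5 : 2 ^ (q + 2) = 2 * 2 ^ (q + 1) := by ring
        omega
      simpa using Finset.card_le_card e3
    refine (Finset.sum_le_sum e1).trans ?_
    rw [Finset.sum_const, nsmul_eq_mul]
    have e3 : (((range K).filter (fun j => lev 3 (j + 1) = q)).card : ℝ) ≤ 4 * 2 ^ q := by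
      have e4 : (((range K).filter (fun j => lev 3 (j + 1) = q)).card : ℝ) ≤ 2 ^ (q + 2) := by
        exact_mod_cast e2
      rw [pow_add] at e4
      linarith
    have e4 : (0 : ℝ) ≤ (q : ℝ) := Nat.cast_nonneg q
    have e5 : (0 : ℝ) ≤ ((q : ℝ) + 1) * ν.real (few q)ᶜ := by positivity
    calc (((range K).filter (fun j => lev 3 (j + 1) = q)).card : ℝ) *
          ((21 / 5 * ((q : ℝ) + 1)) * ν.real (few q)ᶜ)
        ≤ (4 * 2 ^ q) * ((21 / 5 * ((q : ℝ) + 1)) * ν.real (few q)ᶜ) :=
          mul_le_mul_of_nonneg_right e3 (by positivity)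
      _ = (84 / 5) * (2 ^ q * (((q : ℝ) + 1) * ν.real (few q)ᶜ)) := by ring
      _ ≤ 20 * (2 ^ q * (((q : ℝ) + 1) * ν.real (few q)ᶜ)) := by
          have e6 : (0 : ℝ) ≤ 2 ^ q * (((q : ℝ) + 1) * ν.real (few q)ᶜ) := by positivity
          linarith
      _ = _ := by ring
  refine (key.trans (add_le_add (add_le_add hlog3 hprod) hsum)).trans ?_
  linarith

end Pool.Agent.Helper61.RH
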