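import Mathlib
import Pool.Agent.Helper61.RH.Circle
import Pool.Agent.Helper75.RE.Renyi

/-!
# Renyi entropy and the growth of the Shannon entropy

If the Shannon entropy of the dyadic arcs of length `2 ^ (-K)` is not `O(K ^ a)` then the Renyi
entropy of order `s` is positive for all `s < 1 / (3 - 2 a)`.
-/

set_option autoImplicit false

open MeasureTheory Finset Filter

namespace Pool.Agent.Helper61.RH

open Helper75.RE

/-- Small sums of powers at one scale: few points have complex orbits. -/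
theorem few_decay {ν : Measure Tor} [IsProbabilityMeasure ν]
    (h3 : MeasurePreserving (fun x : Tor => (3 : ℕ) • x) ν ν) {s ε : ℝ} (hs : 0 < s) (hs1 : s < 1)
    (q : ℕ) (hq : powSum ν s (q + 4) ≤ (2 : ℝ) ^ (ε * (q + 4))) :
    2 ^ q * ν.real (few q)ᶜ ≤ 4 * (2 : ℝ) ^ (4 * ε + (1 - s) * (1 + 4 * ε) / s +
      (3 * s - 1 + 2 * ε) / (2 * s) * q) := by
  obtain ⟨A, hA⟩ : ∃ A : ℝ, A = (((q : ℝ) - 2) / 2 - ε * (q + 4)) / s := ⟨_, rfl⟩
  have hv : (0 : ℝ) < 2 ^ (-A) := Real.rpow_pos_of_pos (by norm_num) _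
  have hsA : s * A = ((q : ℝ) - 2) / 2 - ε * (q + 4) := by
    rw [hA]
    field_simp
  -- the number of heavy arcs
  have hcard : 2 * (heavy ν (2 ^ (-A)) (q + 4)).card ^ 2 < 2 ^ q := by
    have h5 := (heavy_card ν hs hv (q + 4)).trans hq
    have h6 : ((2 : ℝ) ^ (-A)) ^ s = 2 ^ (-(s * A)) := by
      rw [← Real.rpow_mul (by norm_num)]
      congr 1
      ring
    rw [h6, hsA, ← le_div_iff₀ (Real.rpow_pos_of_pos (by norm_num) _),
      ← Real.rpow_sub (by norm_num)] at h5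
    have h7 : ε * (q + 4) - -(((q : ℝ) - 2) / 2 - ε * (q + 4)) = ((q : ℝ) - 2) / 2 := by ring
    rw [h7] at h5
    have h8 : ((heavy ν (2 ^ (-A)) (q + 4)).card : ℝ) ^ 2 ≤ 2 ^ ((q : ℝ) - 2) := by
      calc ((heavy ν (2 ^ (-A)) (q + 4)).card : ℝ) ^ 2 ≤ (2 ^ (((q : ℝ) - 2) / 2)) ^ 2 :=
            pow_le_pow_left₀ (Nat.cast_nonneg _) h5 2
        _ = 2 ^ ((q : ℝ) - 2) := by
            rw [← Real.rpow_natCast, ← Real.rpow_mul (by norm_num)]
            congr 1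
            push_cast
            ring
    have h9 : (2 : ℝ) * ((heavy ν (2 ^ (-A)) (q + 4)).card : ℝ) ^ 2 < 2 ^ q := by
      calc (2 : ℝ) * ((heavy ν (2 ^ (-A)) (q + 4)).card : ℝ) ^ 2 ≤ 2 * 2 ^ ((q : ℝ) - 2) := by
            linarith
        _ = 2 ^ ((q : ℝ) - 1) := by
            have : (q : ℝ) - 1 = 1 + ((q : ℝ) - 2) := by ring
            rw [this, Real.rpow_add (by norm_num), Real.rpow_one]
        _ < 2 ^ (q : ℝ) := Real.rpow_lt_rpow_of_exponent_lt (by norm_num) (by linarith)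
        _ = 2 ^ q := Real.rpow_natCast _ _
    exact_mod_cast h9
  have h4 := few_compl_le h3 q _ hcard
  have h5 := heavy_compl ν hs1 hv (q + 4)
  have h7 : ((2 : ℝ) ^ (-A)) ^ (1 - s) = 2 ^ (-((1 - s) * A)) := by
    rw [← Real.rpow_mul (by norm_num)]
    congr 1
    ring
  rw [h7] at h5
  have h8 : (0 : ℝ) < 2 ^ (-((1 - s) * A)) := Real.rpow_pos_of_pos (by norm_num) _
  have h9 : ν.real (⋃ i ∈ heavy ν (2 ^ (-A)) (q + 4), arc (q + 4) i)ᶜ ≤
      2 ^ (-((1 - s) * A)) * 2 ^ (ε * (q + 4)) :=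
    h5.trans (mul_le_mul_of_nonneg_left hq h8.le)
  have h10 : (0 : ℝ) < 2 ^ q := by positivity
  calc 2 ^ q * ν.real (few q)ᶜ
      ≤ 2 ^ q * (4 * (2 ^ (-((1 - s) * A)) * 2 ^ (ε * (q + 4)))) :=
        mul_le_mul_of_nonneg_left (by linarith) h10.le
    _ = 4 * (2 ^ q * (2 ^ (-((1 - s) * A)) * 2 ^ (ε * (q + 4)))) := by ring
    _ = 4 * 2 ^ ((q : ℝ) + (-((1 - s) * A) + ε * (q + 4))) := by
        rw [Real.rpow_add (by norm_num), Real.rpow_add (by norm_num), Real.rpow_natCast]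
    _ = _ := by
        congr 2
        rw [hA]
        field_simp
        ring

/-- The growth theorem. -/
theorem growth {ν : Measure Tor} [IsProbabilityMeasure ν]
    (h2 : MeasurePreserving (fun x : Tor => (2 : ℕ) • x) ν ν)
    (h3 : MeasurePreserving (fun x : Tor => (3 : ℕ) • x) ν ν) {s a ε : ℝ} (hs : 0 < s)
    (hs1 : s < 1) (ha : 0 ≤ a) (hε : ε < (1 - (3 - 2 * a) * s) / 2)
    (hunb : ∀ C : ℝ, ∃ K : ℕ, 1 ≤ K ∧ C * (K : ℝ) ^ a < ent ν K) :
    ∃ᶠ W : ℕ in atTop, (2 : ℝ) ^ (ε * W) < powSum ν s W := by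
  intro hcon
  have hle : ∀ᶠ W : ℕ in atTop, powSum ν s W ≤ (2 : ℝ) ^ (ε * W) := hcon.mono fun W h => not_lt.1 h
  obtain ⟨W₀, hW₀⟩ := eventually_atTop.1 hle
  obtain ⟨c, hc⟩ : ∃ c, c = (3 * s - 1 + 2 * ε) / (2 * s) := ⟨_, rfl⟩
  obtain ⟨c₀, hc₀⟩ : ∃ c₀, c₀ = 4 * ε + (1 - s) * (1 + 4 * ε) / s := ⟨_, rfl⟩
  have hca : c < a := by
    rw [hc, div_lt_iff₀ (by positivity)]
    nlinarith
  -- the series
  obtain ⟨r, hr⟩ : ∃ r : ℝ, r = 2 ^ (c - a) := ⟨_, rfl⟩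
  have hr0 : 0 < r := by rw [hr]; exact Real.rpow_pos_of_pos (by norm_num) _
  have hr1 : r < 1 := by
    rw [hr]
    exact Real.rpow_lt_one_of_one_lt_of_neg (by norm_num) (by linarith)
  have hsumm : Summable fun q : ℕ => ((q : ℝ) + 1) * r ^ q := by
    have e1 := summable_pow_mul_geometric_of_norm_lt_one 1 (r := r)
      (by rw [Real.norm_eq_abs, abs_of_pos hr0]; exact hr1)
    have e2 := summable_geometric_of_lt_one hr0.le hr1
    refine (e1.add e2).congr fun q => ?_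
    ring
  obtain ⟨D, hD⟩ : ∃ D, D = ∑' q : ℕ, ((q : ℝ) + 1) * r ^ q := ⟨_, rfl⟩
  have hD0 : 0 ≤ D := by
    rw [hD]
    exact tsum_nonneg fun q => by positivity
  have hDle : ∀ Q : ℕ, ∑ q ∈ range Q, ((q : ℝ) + 1) * r ^ q ≤ D := by
    intro Q
    rw [hD]
    exact hsumm.sum_le_tsum _ fun q _ => by positivity
  obtain ⟨F, hF⟩ : ∃ F : ℝ, F = ∑ q ∈ range W₀, ((q : ℝ) + 1) * 2 ^ q := ⟨_, rfl⟩
  have hF0 : 0 ≤ F := by
    rw [hF]
    exact Finset.sum_nonneg fun q _ => by positivity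
  have h2a : (0 : ℝ) < 2 ^ a := Real.rpow_pos_of_pos (by norm_num) _
  have h2c : (0 : ℝ) < 2 ^ c₀ := Real.rpow_pos_of_pos (by norm_num) _
  -- the bound of each term
  have hterm : ∀ Q q : ℕ, q ≤ Q → ((q : ℝ) + 1) * (2 ^ q * ν.real (few q)ᶜ) ≤
      (if q < W₀ then ((q : ℝ) + 1) * 2 ^ q else 0) +
        4 * 2 ^ c₀ * (2 : ℝ) ^ (a * Q) * (((q : ℝ) + 1) * r ^ q) := by
    intro Q q hqQ
    have hq1 : (0 : ℝ) < (q : ℝ) + 1 := by positivity
    have hb : ν.real (few q)ᶜ ≤ 1 := measureReal_le_one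
    have hpos : 0 ≤ 4 * 2 ^ c₀ * (2 : ℝ) ^ (a * Q) * (((q : ℝ) + 1) * r ^ q) := by
      have : (0 : ℝ) < 2 ^ (a * Q) := Real.rpow_pos_of_pos (by norm_num) _
      positivity
    split_ifs with hqW
    · have h5 : (0 : ℝ) < 2 ^ q := by positivity
      have h6 : ((q : ℝ) + 1) * (2 ^ q * ν.real (few q)ᶜ) ≤ ((q : ℝ) + 1) * 2 ^ q := by
        refine mul_le_mul_of_nonneg_left ?_ hq1.le
        nlinarith
      linarith
    · rw [zero_add]
      have h4 := hW₀ (q + 4) (by omega)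
      push_cast at h4
      have h5 := few_decay h3 hs hs1 q h4
      rw [← hc, ← hc₀] at h5
      have h6 : (2 : ℝ) ^ (c₀ + c * q) ≤ 2 ^ c₀ * (2 : ℝ) ^ (a * Q) * r ^ q := by
        have e1 : (2 : ℝ) ^ (c₀ + c * q) = 2 ^ c₀ * (2 : ℝ) ^ (a * q) * r ^ q := by
          rw [hr, ← Real.rpow_natCast (2 ^ (c - a)) q, ← Real.rpow_mul (by norm_num),
            ← Real.rpow_add (by norm_num), ← Real.rpow_add (by norm_num)]
          congr 1
          ring
        rw [e1]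
        have e2 : (2 : ℝ) ^ (a * q) ≤ 2 ^ (a * Q) := by
          apply Real.rpow_le_rpow_of_exponent_le (by norm_num)
          have : (q : ℝ) ≤ Q := by exact_mod_cast hqQ
          exact mul_le_mul_of_nonneg_left this ha
        gcongr
      calc ((q : ℝ) + 1) * (2 ^ q * ν.real (few q)ᶜ)
          ≤ ((q : ℝ) + 1) * (4 * (2 ^ c₀ * (2 : ℝ) ^ (a * Q) * r ^ q)) := by
            refine mul_le_mul_of_nonneg_left (h5.trans ?_) hq1.le
            linarith
        _ = _ := by ring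
  -- the bound of the entropy
  obtain ⟨C, hC⟩ : ∃ C : ℝ, C = 20 * (1 + F + 4 * 2 ^ c₀ * 2 ^ a * D) := ⟨_, rfl⟩
  obtain ⟨K, hK1, hK⟩ := hunb C
  obtain ⟨Q, hQ⟩ : ∃ Q, Q = Nat.clog 2 K := ⟨_, rfl⟩
  have hKQ : K ≤ 2 ^ Q := by
    rw [hQ]
    exact Nat.le_pow_clog (by norm_num) K
  have hQK : 2 ^ Q ≤ 2 * K := by
    rcases Nat.lt_or_ge 1 K with h5 | h5
    · have h6 := Nat.pow_pred_clog_lt_self (b := 2) (by norm_num) h5
      rw [← hQ] at h6
      have h7 : 0 < Q := by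
        rw [hQ]
        exact Nat.clog_pos (by norm_num) h5
      have h8 : 2 ^ Q = 2 * 2 ^ Q.pred := by
        rw [← pow_succ']
        congr 1
        exact (Nat.succ_pred_eq_of_pos h7).symm
      omega
    · have h6 : K = 1 := by omega
      rw [hQ, h6]
      simp
  have h5 := ent_le h2 h3 Q K hKQ
  have h6 : ∑ q ∈ range Q, ((q : ℝ) + 1) * (2 ^ q * ν.real (few q)ᶜ) ≤
      F + 4 * 2 ^ c₀ * (2 : ℝ) ^ (a * Q) * D := by
    refine (Finset.sum_le_sum fun q hq => hterm Q q (Finset.mem_range.1 hq).le).trans ?_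
    rw [Finset.sum_add_distrib, ← Finset.mul_sum]
    refine add_le_add ?_ ?_
    · rw [← Finset.sum_filter, hF]
      refine Finset.sum_le_sum_of_subset_of_nonneg ?_ fun q _ _ => by positivity
      intro q hq
      rw [Finset.mem_filter] at hq
      exact Finset.mem_range.2 hq.2
    · have : (0 : ℝ) < 2 ^ (a * Q) := Real.rpow_pos_of_pos (by norm_num) _
      exact mul_le_mul_of_nonneg_left (hDle Q) (by positivity)
  have hKr : (1 : ℝ) ≤ K := by exact_mod_cast hK1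
  have h7 : (2 : ℝ) ^ (a * Q) ≤ 2 ^ a * (K : ℝ) ^ a := by
    rw [← Real.mul_rpow (by norm_num) (by linarith), mul_comm a, Real.rpow_mul (by norm_num),
      Real.rpow_natCast]
    apply Real.rpow_le_rpow (by positivity) _ ha
    exact_mod_cast hQK
  have h8 : (1 : ℝ) ≤ (K : ℝ) ^ a := Real.one_le_rpow hKr ha
  have h9 : ent ν K ≤ C * (K : ℝ) ^ a := by
    calc ent ν K ≤ 20 * (1 + (F + 4 * 2 ^ c₀ * (2 : ℝ) ^ (a * Q) * D)) := by linarith
      _ ≤ 20 * ((1 + F) * (K : ℝ) ^ a + 4 * 2 ^ c₀ * (2 ^ a * (K : ℝ) ^ a) * D) := by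
          have e1 : 4 * 2 ^ c₀ * (2 : ℝ) ^ (a * Q) * D ≤ 4 * 2 ^ c₀ * (2 ^ a * (K : ℝ) ^ a) * D := by
            gcongr
          have e2 : 1 + F ≤ (1 + F) * (K : ℝ) ^ a := by nlinarith
          linarith
      _ = C * (K : ℝ) ^ a := by
          rw [hC]
          ring
  linarith

end Pool.Agent.Helper61.RH
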