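import Mathlib
import Pool.Agent.Helper61.RH.Growth

/-!
# The Shannon entropy of a measure without atoms is unbounded
-/

set_option autoImplicit false

open MeasureTheory Finset Filter

namespace Pool.Agent.Helper61.RH

open Helper75.RE
open Pool.Agent.Helper61.FR

theorem ent_zero (ν : Measure Tor) [IsProbabilityMeasure ν] : ent ν 0 = 0 := by
  have h := sum_arc (ν := ν) 0
  unfold ent
  rw [pow_zero, Finset.sum_range_one] at h ⊢
  rw [h, Real.negMulLog_one]

theorem growth' {ν : Measure Tor} [IsProbabilityMeasure ν]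
    (h2 : MeasurePreserving (fun x : Tor => (2 : ℕ) • x) ν ν)
    (h3 : MeasurePreserving (fun x : Tor => (3 : ℕ) • x) ν ν) {s a ε : ℝ} (hs : 0 < s)
    (hs1 : s < 1) (ha : 0 ≤ a) (hε : ε < (1 - (3 - 2 * a) * s) / 2)
    (hunb : ∀ C : ℝ, ∃ K : ℕ, C * (K : ℝ) ^ a < ent ν K) :
    ∃ᶠ W : ℕ in atTop, (2 : ℝ) ^ (ε * W) < powSum ν s W := by
  refine growth h2 h3 hs hs1 ha hε fun C => ?_
  obtain ⟨K, hK⟩ := hunb (max C 0)
  have h0 : 0 ≤ (K : ℝ) ^ a := Real.rpow_nonneg (Nat.cast_nonneg K) a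
  refine ⟨K, ?_, lt_of_le_of_lt (mul_le_mul_of_nonneg_right (le_max_left C 0) h0) hK⟩
  rcases Nat.eq_zero_or_pos K with h | h
  · exfalso
    rw [h, ent_zero] at hK
    rw [h] at h0
    have := mul_nonneg (le_max_right C 0) h0
    linarith
  · exact h

/-- bounded entropy gives an arc of definite mass -/
theorem exists_arc {ν : Measure Tor} [IsProbabilityMeasure ν] {B : ℝ} {K : ℕ} (h : ent ν K ≤ B) :
    ∃ i < 2 ^ K, Real.exp (-B) ≤ ν.real (arc K i) := by
  by_contra hcon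
  push Not at hcon
  have h1 := sum_arc (ν := ν) K
  have h2 : ∀ i ∈ range (2 ^ K), ν.real (arc K i) * B ≤ Real.negMulLog (ν.real (arc K i)) := by
    intro i hi
    have h3 := hcon i (Finset.mem_range.1 hi)
    have h4 : 0 ≤ ν.real (arc K i) := measureReal_nonneg
    rcases h4.eq_or_lt with h5 | h5
    · rw [← h5, zero_mul, Real.negMulLog_zero]
    · have h6 := Real.log_le_log h5 h3.le
      rw [Real.log_exp] at h6
      unfold Real.negMulLog
      nlinarith
  obtain ⟨i, hi, hi0⟩ : ∃ i ∈ range (2 ^ K), 0 < ν.real (arc K i) := by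
    by_contra hc
    push Not at hc
    have := Finset.sum_nonpos hc
    linarith
  have h5 : ∑ i ∈ range (2 ^ K), ν.real (arc K i) * B < ent ν K := by
    refine Finset.sum_lt_sum h2 ⟨i, hi, ?_⟩
    have h6 := Real.log_lt_log hi0 (hcon i (Finset.mem_range.1 hi))
    rw [Real.log_exp] at h6
    unfold Real.negMulLog
    nlinarith
  rw [← Finset.sum_mul, h1, one_mul] at h5
  linarith

theorem ent_unbounded {ν : Measure Tor} [IsProbabilityMeasure ν]
    (h2 : MeasurePreserving (fun x : Tor => (2 : ℕ) • x) ν ν)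
    (h3 : MeasurePreserving (fun x : Tor => (3 : ℕ) • x) ν ν) (h0 : ∀ x, ν {x} = 0) (B : ℝ) :
    ∃ K : ℕ, B < ent ν K := by
  by_contra hcon
  push Not at hcon
  obtain ⟨μ, hμ, hν, -⟩ := exists_inv23 ν h2 h3
  have hprob := hμ.prob
  obtain ⟨a, ha⟩ := Helper58.LU.atom_of_arcs hν (Real.exp (-B)) (by
    intro K
    obtain ⟨i, hi, hi'⟩ := exists_arc (hcon K)
    refine ⟨(i : ℝ) / 2 ^ K, hi'.trans ?_⟩
    rw [real_arc hν K i hi]
    refine measureReal_mono ?_ (measure_ne_top μ _)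
    intro x hx
    have hx' : cell K x = i := hx
    unfold cell at hx'
    have hp : (0 : ℝ) < 2 ^ K := by positivity
    rw [Nat.floor_eq_iff (mul_nonneg hp.le (Int.fract_nonneg x))] at hx'
    obtain ⟨h4, h5⟩ := hx'
    show ∃ z : ℤ, |x - (i : ℝ) / 2 ^ K - z| ≤ (1 / 2) ^ K
    refine ⟨⌊x⌋, ?_⟩
    have e1 : x - (i : ℝ) / 2 ^ K - (⌊x⌋ : ℝ) = (2 ^ K * Int.fract x - i) / 2 ^ K := by
      have := Int.floor_add_fract x
      rw [sub_div, mul_div_cancel_left₀ _ hp.ne']
      linarith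
    rw [e1, abs_div, abs_of_pos hp, one_div, inv_pow, div_le_iff₀ hp, inv_mul_cancel₀ hp.ne',
      abs_le]
    constructor <;> linarith)
  have h6 : ν.real {a} = 0 := by rw [measureReal_def, h0 a, ENNReal.toReal_zero]
  have h7 := Real.exp_pos (-B)
  linarith

end Pool.Agent.Helper61.RH
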